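import Mathlib
import Pool.Agent.V1181.H10
import Pool.Agent.V1181.Lap

/-!
# Anisotropic Brezis-Nirenberg problems whose threshold is negative
-/

set_option autoImplicit false

namespace Pool.Agent.Results.MP_6822f0_an.Counterexample

open Pool.Agent.V1181
open Real Set Filter MeasureTheory Topology InnerProductSpace Laplacian
open scoped ENNReal NNReal

noncomputable section

/-- Euclidean space. -/
abbrev Sp (n : ℕ) := EuclideanSpace ℝ (Fin n)

/-- The critical exponent `2^* = 2n/(n-2)`. -/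
def crit (n : ℕ) : ℝ := 2 * n / (n - 2)

/-- The best constant `S` of the Sobolev embedding: the largest `K` with
`K ‖u‖²_{2^*} ≤ ‖∇u‖²_2` for all compactly supported `C¹` functions. -/
def sobolev (n : ℕ) : ℝ :=
  sSup {K : ℝ | ∀ u : Sp n → ℝ, ContDiff ℝ 1 u → HasCompactSupport u →
    K * (∫ x, |u x| ^ crit n) ^ (2 / crit n) ≤ ∫ x, ‖gradient u x‖ ^ 2}

/-- The functional `J_lam` at `u ∈ H¹₀(Ω)` with weak gradient `G`. -/
def J (n : ℕ) (Ω : Set (Sp n)) (lam : ℝ) (a b c u : Sp n → ℝ) (G : Sp n → Sp n) : ℝ :=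
  1 / 2 * (∫ x in Ω, a x * ‖G x‖ ^ 2) - lam / 2 * (∫ x in Ω, b x * u x ^ 2)
    - 1 / crit n * ∫ x in Ω, c x * |u x| ^ crit n

/-- `J_lam'(u) u`. -/
def dJ (n : ℕ) (Ω : Set (Sp n)) (lam : ℝ) (a b c u : Sp n → ℝ) (G : Sp n → Sp n) : ℝ :=
  (∫ x in Ω, a x * ‖G x‖ ^ 2) - lam * (∫ x in Ω, b x * u x ^ 2)
    - ∫ x in Ω, c x * |u x| ^ crit n

/-- The ground state level: the infimum of `J_lam` over the Nehari manifold. -/
def level (n : ℕ) (Ω : Set (Sp n)) (lam : ℝ) (a b c : Sp n → ℝ) : EReal :=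
  sInf {r : EReal | ∃ (u : Sp n → ℝ) (G : Sp n → Sp n), IsH10 Ω u G ∧
    ¬ u =ᵐ[volume.restrict Ω] 0 ∧ dJ n Ω lam a b c u G = 0 ∧ r = (J n Ω lam a b c u G : ℝ)}

/-- The function `f = a^{n/2} / c^{(n-2)/2}`. -/
def quot (n : ℕ) (a c : Sp n → ℝ) (x : Sp n) : ℝ :=
  a x ^ ((n : ℝ) / 2) / c x ^ (((n : ℝ) - 2) / 2)

/-- The level `κ`. -/
def kap (n : ℕ) (Ω : Set (Sp n)) (a c : Sp n → ℝ) : ℝ :=
  sInf (quot n a c '' closure Ω) * (1 / n * sobolev n ^ ((n : ℝ) / 2))

/-- The first eigenvalue of `-div(a∇u) = lam b u` in `Ω`, `u = 0` on the boundary. -/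
def lam1 (n : ℕ) (Ω : Set (Sp n)) (a b : Sp n → ℝ) : EReal :=
  sInf {r : EReal | ∃ l : ℝ, r = l ∧ ∃ (u : Sp n → ℝ) (G : Sp n → Sp n), IsH10 Ω u G ∧
    ¬ u =ᵐ[volume.restrict Ω] 0 ∧ ∀ (v : Sp n → ℝ) (V : Sp n → Sp n), IsH10 Ω v V →
      ∫ x in Ω, a x * inner ℝ (G x) (V x) = l * ∫ x in Ω, b x * u x * v x}

/-- The threshold `lam_{0,*}`. -/
def lam0 (n : ℕ) (Ω : Set (Sp n)) (a b c : Sp n → ℝ) : EReal :=
  sInf {r : EReal | ∃ l : ℝ, r = l ∧ (l : EReal) < lam1 n Ω a b ∧
    level n Ω l a b c < (kap n Ω a c : ℝ)}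

/-! ### The data -/

variable {n : ℕ}

/-- The coefficients. -/
def aa (n : ℕ) (K : ℝ) (x : Sp n) : ℝ := exp (-K * ‖x‖ ^ 2)

def bb (n : ℕ) (K : ℝ) (_ : Sp n) : ℝ := exp (-K)

def cc (n : ℕ) (K : ℝ) (x : Sp n) : ℝ :=
  exp (-(K * n / (n - 2)) * ‖x‖ ^ 2 - 2 / (n - 2) * (1 - ‖x‖ ^ 2))

theorem quot_eq (hn : 3 ≤ n) (K : ℝ) :
    quot n (aa n K) (cc n K) = fun x => exp (1 - ‖x‖ ^ 2) := by
  funext x
  have h2 : (n : ℝ) - 2 ≠ 0 := by
    have : (3 : ℝ) ≤ n := by exact_mod_cast hn
    intro h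
    linarith
  unfold quot aa cc
  rw [← exp_mul, ← exp_mul, ← exp_sub]
  congr 1
  field_simp
  ring

theorem closure_ball' : closure (Metric.ball (0 : Sp n) 1) = Metric.closedBall 0 1 :=
  closure_ball _ one_ne_zero

theorem exists_unit (hn : 3 ≤ n) : ∃ x : Sp n, ‖x‖ = 1 := by
  refine ⟨EuclideanSpace.single ⟨0, by omega⟩ 1, by simp⟩

theorem kap_eq (hn : 3 ≤ n) (K : ℝ) :
    kap n (Metric.ball 0 1) (aa n K) (cc n K) = 1 / n * sobolev n ^ ((n : ℝ) / 2) := by
  unfold kap
  rw [quot_eq hn, closure_ball']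
  have h : IsLeast ((fun x : Sp n => exp (1 - ‖x‖ ^ 2)) '' Metric.closedBall 0 1) 1 := by
    constructor
    · obtain ⟨x, hx⟩ := exists_unit hn
      refine ⟨x, by simp [hx], ?_⟩
      simp [hx]
    · rintro _ ⟨x, hx, rfl⟩
      rw [mem_closedBall_zero_iff] at hx
      refine Real.one_le_exp ?_
      nlinarith [norm_nonneg x]
  rw [h.csInf_eq, one_mul]

/-! ### The test function -/

/-- The test function. -/
def φ (n : ℕ) (x : Sp n) : ℝ := smoothTransition (3 - 4 * ‖x‖ ^ 2)

theorem φ_smooth : ContDiff ℝ 1 (φ n) := by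
  have h1 : ContDiff ℝ 1 fun x : Sp n => 3 - 4 * ‖x‖ ^ 2 :=
    contDiff_const.sub (contDiff_const.mul (contDiff_norm_sq ℝ))
  exact Real.smoothTransition.contDiff.comp h1

theorem φ_nonneg (x : Sp n) : 0 ≤ φ n x := Real.smoothTransition.nonneg _

theorem φ_le_one (x : Sp n) : φ n x ≤ 1 := Real.smoothTransition.le_one _

theorem φ_one {x : Sp n} (h : ‖x‖ ^ 2 ≤ 1 / 2) : φ n x = 1 :=
  Real.smoothTransition.one_of_one_le (by linarith)

theorem φ_supp : tsupport (φ n) ⊆ {x : Sp n | ‖x‖ ^ 2 ≤ 3 / 4} := by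
  refine closure_minimal ?_ (isClosed_le (by fun_prop) continuous_const)
  intro x hx
  by_contra hcon
  apply hx
  have hcon' : 3 / 4 < ‖x‖ ^ 2 := not_le.1 hcon
  exact Real.smoothTransition.zero_of_nonpos (by linarith)

theorem supp_sub : {x : Sp n | ‖x‖ ^ 2 ≤ 3 / 4} ⊆ Metric.ball (0 : Sp n) 1 := by
  intro x hx
  have hx' : ‖x‖ ^ 2 ≤ 3 / 4 := hx
  rw [mem_ball_zero_iff]
  nlinarith [norm_nonneg x]

theorem φ_compact : HasCompactSupport (φ n) :=
  HasCompactSupport.of_support_subset_isCompact (isCompact_closedBall (0 : Sp n) 1)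
    ((subset_tsupport _).trans ((φ_supp.trans supp_sub).trans Metric.ball_subset_closedBall))

theorem φ_test : IsTest (Metric.ball (0 : Sp n) 1) (φ n) :=
  ⟨φ_smooth, φ_compact, φ_supp.trans supp_sub⟩

theorem φ_grad_zero {x : Sp n} (h : ‖x‖ ^ 2 < 1 / 2) : gradient (φ n) x = 0 := by
  have h1 : φ n =ᶠ[𝓝 x] fun _ => 1 := by
    have h2 : ∀ᶠ y in 𝓝 x, ‖y‖ ^ 2 < 1 / 2 :=
      (continuous_norm.pow 2).continuousAt.eventually_lt continuousAt_const h
    filter_upwards [h2] with y hy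
    exact φ_one hy.le
  rw [h1.gradient_eq]
  exact gradient_fun_const x 1

theorem exists_grad_bound : ∃ C : ℝ, 0 ≤ C ∧ ∀ x : Sp n, ‖gradient (φ n) x‖ ^ 2 ≤ C := by
  obtain ⟨C, hC⟩ := (grad_cont (φ_smooth (n := n))).bounded_above_of_compact_support
    (grad_compact φ_compact)
  refine ⟨C ^ 2, by positivity, fun x => ?_⟩
  have := hC x
  have := norm_nonneg (gradient (φ n) x)
  gcongr

/-! ### Integrability of continuous functions on the ball -/

theorem int_ball {f : Sp n → ℝ} (hf : Continuous f) :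
    IntegrableOn f (Metric.ball (0 : Sp n) 1) :=
  (hf.continuousOn.integrableOn_compact (isCompact_closedBall 0 1)).mono_set
    Metric.ball_subset_closedBall

/-- A lower bound for weighted integrals of powers of the test function. -/
theorem lower {w : Sp n → ℝ} (hw : Continuous w) (hw0 : ∀ x, 0 ≤ w x) {p : ℝ} (hp : 0 < p) {r : ℝ}
    (hr : ∀ x : Sp n, ‖x‖ ≤ 1 / 4 → r ≤ w x) :
    r * (volume.real (Metric.ball (0 : Sp n) (1 / 4))) ≤
      ∫ x in Metric.ball (0 : Sp n) 1, w x * |φ n x| ^ p := by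
  have hsub : Metric.ball (0 : Sp n) (1 / 4) ⊆ Metric.ball (0 : Sp n) 1 :=
    Metric.ball_subset_ball (by norm_num)
  have hc : Continuous fun x => w x * |φ n x| ^ p :=
    hw.mul ((φ_smooth.continuous.abs).rpow_const fun x => Or.inr hp.le)
  have h1 : ∫ x in Metric.ball (0 : Sp n) (1 / 4), w x * |φ n x| ^ p
      ≤ ∫ x in Metric.ball (0 : Sp n) 1, w x * |φ n x| ^ p := by
    refine setIntegral_mono_set (int_ball hc) ?_ hsub.eventuallyLE
    refine Eventually.of_forall fun x => ?_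
    have := hw0 x
    show 0 ≤ w x * |φ n x| ^ p
    positivity
  refine le_trans ?_ h1
  have h2 : ∫ _ in Metric.ball (0 : Sp n) (1 / 4), r
      ≤ ∫ x in Metric.ball (0 : Sp n) (1 / 4), w x * |φ n x| ^ p := by
    refine setIntegral_mono_on (integrableOn_const measure_ball_lt_top.ne) ((int_ball hc).mono_set hsub)
      measurableSet_ball fun x hx => ?_
    have hx' : ‖x‖ < 1 / 4 := by simpa using hx
    rw [φ_one (by nlinarith [norm_nonneg x]), abs_one, one_rpow, mul_one]
    exact hr x hx'.le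
  rw [setIntegral_const, smul_eq_mul, mul_comm] at h2
  exact h2

theorem vol_pos : 0 < volume.real (Metric.ball (0 : Sp n) (1 / 4)) :=
  ENNReal.toReal_pos (Metric.measure_ball_pos _ _ (by norm_num)).ne' measure_ball_lt_top.ne

theorem vol_pos' : 0 < volume.real (Metric.ball (0 : Sp n) 1) :=
  ENNReal.toReal_pos (Metric.measure_ball_pos _ _ (by norm_num)).ne' measure_ball_lt_top.ne

/-! ### Sobolev's inequality -/

theorem crit_gt (hn : 3 ≤ n) : 2 < crit n := by
  have h3 : (3 : ℝ) ≤ n := by exact_mod_cast hn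
  unfold crit
  rw [lt_div_iff₀ (by linarith)]
  linarith

theorem sobolev_pos (hn : 3 ≤ n) : 0 < sobolev n := by
  have h3 : (3 : ℝ) ≤ n := by exact_mod_cast hn
  have hcr := crit_gt hn
  obtain ⟨p, hp⟩ : ∃ p : ℝ≥0, (p : ℝ) = crit n := ⟨⟨crit n, by linarith⟩, rfl⟩
  have hp0 : (p : ℝ≥0∞) ≠ 0 := by
    intro h
    rw [ENNReal.coe_eq_zero] at h
    rw [h] at hp
    simp at hp
    linarith
  obtain ⟨C, hC⟩ : ∃ C : ℝ≥0, ∀ u : Sp n → ℝ, ContDiff ℝ 1 u → HasCompactSupport u →
      eLpNorm u p volume ≤ ENNReal.ofReal C * eLpNorm (fderiv ℝ u) (2 : ℝ≥0) volume := by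
    refine ⟨eLpNormLESNormFDerivOfEqInnerConst (volume : Measure (Sp n)) (2 : ℝ≥0),
      fun u hu huc => ?_⟩
    rw [ENNReal.ofReal_coe_nnreal]
    refine eLpNorm_le_eLpNorm_fderiv_of_eq_inner (F' := ℝ) (volume : Measure (Sp n)) hu huc
      (p := 2) (p' := p) (by norm_num) (by rw [finrank_euclideanSpace, Fintype.card_fin]; omega) ?_
    rw [finrank_euclideanSpace, Fintype.card_fin, hp]
    unfold crit
    have h2 : (n : ℝ) - 2 ≠ 0 := by
      intro h
      linarith
    have h4 : (n : ℝ) ≠ 0 := by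
      intro h
      linarith
    change (2 * (n : ℝ) / (n - 2))⁻¹ = (2 : ℝ)⁻¹ - (n : ℝ)⁻¹
    field_simp
  have hC0 : (0 : ℝ) ≤ C := C.2
  have hmem : 1 / ((C : ℝ) + 1) ^ 2 ∈ {K : ℝ | ∀ u : Sp n → ℝ, ContDiff ℝ 1 u →
      HasCompactSupport u →
      K * (∫ x, |u x| ^ crit n) ^ (2 / crit n) ≤ ∫ x, ‖gradient u x‖ ^ 2} := by
    intro u hu huc
    have h1 := hC u hu huc
    have m1 : MemLp u p volume := hu.continuous.memLp_of_hasCompactSupport huc
    have m2 : MemLp (fderiv ℝ u) (2 : ℝ≥0) volume :=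
      (hu.continuous_fderiv (by norm_num)).memLp_of_hasCompactSupport (huc.fderiv (𝕜 := ℝ))
    rw [m1.eLpNorm_eq_integral_rpow_norm hp0 ENNReal.coe_ne_top,
      m2.eLpNorm_eq_integral_rpow_norm (by norm_num) ENNReal.coe_ne_top,
      ← ENNReal.ofReal_mul hC0,
      ENNReal.ofReal_le_ofReal_iff (by positivity)] at h1
    simp only [ENNReal.coe_toReal, NNReal.coe_ofNat, hp, Real.norm_eq_abs] at h1
    have e1 : ∫ x, ‖fderiv ℝ u x‖ ^ (2 : ℝ) = ∫ x, ‖gradient u x‖ ^ 2 := by
      refine integral_congr_ae (Eventually.of_forall fun x => ?_)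
      show ‖fderiv ℝ u x‖ ^ (2 : ℝ) = ‖gradient u x‖ ^ 2
      rw [norm_grad, rpow_two]
    rw [e1] at h1
    have hA : 0 ≤ ∫ x, |u x| ^ crit n := integral_nonneg fun x => by positivity
    have hB : 0 ≤ ∫ x, ‖gradient u x‖ ^ 2 := integral_nonneg fun x => by positivity
    have h4 : (∫ x, |u x| ^ crit n) ^ (2 / crit n) = ((∫ x, |u x| ^ crit n) ^ (crit n)⁻¹) ^ 2 := by
      rw [← rpow_natCast, ← rpow_mul hA]
      congr 1
      push_cast
      ring
    have h5 : ((∫ x, ‖gradient u x‖ ^ 2) ^ (2 : ℝ)⁻¹) ^ 2 = ∫ x, ‖gradient u x‖ ^ 2 := by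
      rw [← rpow_natCast, ← rpow_mul hB]
      norm_num
    have h6 : ((∫ x, |u x| ^ crit n) ^ (crit n)⁻¹) ^ 2 ≤
        (C * (∫ x, ‖gradient u x‖ ^ 2) ^ (2 : ℝ)⁻¹) ^ 2 := by
      gcongr
    rw [mul_pow, h5] at h6
    rw [h4]
    calc 1 / ((C : ℝ) + 1) ^ 2 * ((∫ x, |u x| ^ crit n) ^ (crit n)⁻¹) ^ 2
        ≤ 1 / ((C : ℝ) + 1) ^ 2 * ((C : ℝ) ^ 2 * ∫ x, ‖gradient u x‖ ^ 2) := by gcongr
      _ = (C : ℝ) ^ 2 / ((C : ℝ) + 1) ^ 2 * ∫ x, ‖gradient u x‖ ^ 2 := by ring
      _ ≤ 1 * ∫ x, ‖gradient u x‖ ^ 2 := by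
        gcongr
        rw [div_le_one (by positivity)]
        gcongr
        linarith
      _ = _ := one_mul _
  have hbdd : BddAbove {K : ℝ | ∀ u : Sp n → ℝ, ContDiff ℝ 1 u →
      HasCompactSupport u →
      K * (∫ x, |u x| ^ crit n) ^ (2 / crit n) ≤ ∫ x, ‖gradient u x‖ ^ 2} := by
    have h1 : 0 < ∫ x : Sp n, |φ n x| ^ crit n := by
      have h2 := lower (n := n) (w := fun _ => 1) continuous_const (fun _ => zero_le_one)
        (p := crit n) (by linarith) (r := 1) (fun _ _ => le_rfl)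
      have h4 : ∫ x in Metric.ball (0 : Sp n) 1, 1 * |φ n x| ^ crit n
          ≤ ∫ x : Sp n, |φ n x| ^ crit n := by
        simp only [one_mul]
        refine setIntegral_le_integral ?_ (Eventually.of_forall fun x => by positivity)
        refine Continuous.integrable_of_hasCompactSupport
          (φ_smooth.continuous.abs.rpow_const fun x => Or.inr (by linarith)) ?_
        refine φ_compact.mono ?_
        intro x hx
        rw [Function.mem_support] at hx ⊢
        intro h0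
        apply hx
        rw [h0, abs_zero, zero_rpow (by linarith)]
      have := vol_pos (n := n)
      linarith
    refine ⟨(∫ x, ‖gradient (φ n) x‖ ^ 2) / (∫ x : Sp n, |φ n x| ^ crit n) ^ (2 / crit n), ?_⟩
    intro K hK
    have h2 := hK (φ n) φ_smooth φ_compact
    rw [le_div_iff₀ (by positivity)]
    exact h2
  have : 0 < 1 / ((C : ℝ) + 1) ^ 2 := by positivity
  exact this.trans_le (le_csSup hbdd hmem)

/-! ### Poincaré's inequality -/

theorem poincare_test (hn : 3 ≤ n) {ψ : Sp n → ℝ} (h : IsTest (Metric.ball (0 : Sp n) 1) ψ) :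
    ∫ x, ψ x ^ 2 ≤ ∫ x, ‖gradient ψ x‖ ^ 2 := by
  have h3 : (3 : ℝ) ≤ n := by exact_mod_cast hn
  have hw : ContDiff ℝ 2 (fun x : Sp n => 1 / 2 * ‖x‖ ^ 2) :=
    contDiff_const.mul (contDiff_norm_sq ℝ)
  have h1 := green_test hw (φ := fun x => ψ x ^ 2) (h.1.pow 2) (by
    refine h.2.1.mono ?_
    intro x hx
    rw [Function.mem_support] at hx ⊢
    intro h0
    apply hx
    rw [h0]
    norm_num)
  have hd : ∀ s : ℝ, HasDerivAt (fun s : ℝ => 1 / 2 * s) (1 / 2) s := fun s => by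
    simpa only [mul_one, id] using (hasDerivAt_id s).const_mul (1 / 2 : ℝ)
  have e1 : ∀ x : Sp n, Δ (fun y : Sp n => (1 / 2 : ℝ) * ‖y‖ ^ 2) x = (n : ℝ) := by
    intro x
    rw [lap_radial (F := fun s => 1 / 2 * s) (F' := fun _ => 1 / 2) (F'' := 0)
      (contDiff_const.mul contDiff_id).contDiffAt (Eventually.of_forall hd)
      (hasDerivAt_const _ _), finrank_euclideanSpace, Fintype.card_fin]
    ring
  have e2 : ∀ x : Sp n, gradient (fun x : Sp n => 1 / 2 * ‖x‖ ^ 2) x = x := by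
    intro x
    rw [grad_radial (F := fun s => 1 / 2 * s) (hd _)]
    norm_num
  have e3 : ∀ x : Sp n, gradient (fun x => ψ x ^ 2) x = (2 * ψ x) • gradient ψ x := by
    intro x
    have hgx : HasGradientAt ψ (gradient ψ x) x :=
      (h.1.differentiable (by norm_num) x).hasGradientAt
    have := hasGrad_comp (Φ := fun s => s ^ 2) (Φ' := 2 * ψ x) (by
      simpa using hasDerivAt_pow 2 (ψ x)) hgx
    exact this.gradient
  simp only [e1, e2, e3] at h1
  have i1 : Integrable fun x => ψ x ^ 2 := by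
    refine Continuous.integrable_of_hasCompactSupport (h.1.continuous.pow 2) ?_
    refine h.2.1.mono ?_
    intro x hx
    rw [Function.mem_support] at hx ⊢
    intro h0
    apply hx
    rw [h0]
    norm_num
  have i2 : Integrable fun x => ‖gradient ψ x‖ ^ 2 := by
    refine Continuous.integrable_of_hasCompactSupport ((grad_cont h.1).norm.pow 2) ?_
    refine (grad_compact h.2.1).mono ?_
    intro x hx
    rw [Function.mem_support] at hx ⊢
    intro h0
    apply hx
    rw [h0]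
    norm_num
  have h4 : -(∫ x, (ψ x ^ 2 + ‖gradient ψ x‖ ^ 2)) ≤
      ∫ x, inner ℝ x ((2 * ψ x) • gradient ψ x) := by
    rw [← integral_neg]
    have i3 : Integrable fun x => inner ℝ x ((2 * ψ x) • gradient ψ x) := by
      refine Continuous.integrable_of_hasCompactSupport ?_ ?_
      · exact continuous_id.inner ((continuous_const.mul h.1.continuous).smul (grad_cont h.1))
      · refine h.2.1.mono ?_
        intro x hx
        rw [Function.mem_support] at hx ⊢
        intro h0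
        apply hx
        rw [h0, mul_zero, zero_smul, inner_zero_right]
    refine integral_mono (i1.add i2).neg i3 fun x => ?_
    show -(ψ x ^ 2 + ‖gradient ψ x‖ ^ 2) ≤ inner ℝ x ((2 * ψ x) • gradient ψ x)
    by_cases hx : x ∈ Metric.ball (0 : Sp n) 1
    · have hx' : ‖x‖ < 1 := by simpa using hx
      rw [inner_smul_right]
      have h8 := abs_real_inner_le_norm x (gradient ψ x)
      have h9 : ‖x‖ * ‖gradient ψ x‖ ≤ 1 * ‖gradient ψ x‖ := by gcongr
      have h10 : |inner ℝ x (gradient ψ x)| ≤ ‖gradient ψ x‖ := by linarith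
      have h11 : -(|ψ x| * ‖gradient ψ x‖) ≤ ψ x * inner ℝ x (gradient ψ x) := by
        have h12 := neg_abs_le (ψ x * inner ℝ x (gradient ψ x))
        rw [abs_mul] at h12
        have h13 : |ψ x| * |inner ℝ x (gradient ψ x)| ≤ |ψ x| * ‖gradient ψ x‖ := by gcongr
        linarith
      have h14 : 2 * (|ψ x| * ‖gradient ψ x‖) ≤ ψ x ^ 2 + ‖gradient ψ x‖ ^ 2 := by
        have := sq_nonneg (|ψ x| - ‖gradient ψ x‖)
        rw [sub_sq, sq_abs] at this
        linarith
      linarith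
    · rw [h.zero_out hx, mul_zero, zero_smul, inner_zero_right, h.grad_zero_out hx]
      simp
  have h5 : ∫ x, (ψ x ^ 2 + ‖gradient ψ x‖ ^ 2) = (∫ x, ψ x ^ 2) + ∫ x, ‖gradient ψ x‖ ^ 2 :=
    integral_add i1 i2
  have h6 : ∫ x, (n : ℝ) * ψ x ^ 2 = n * ∫ x, ψ x ^ 2 := integral_const_mul _ _
  have h7 : 0 ≤ ∫ x, ψ x ^ 2 := integral_nonneg fun x => by positivity
  rw [h6] at h1
  nlinarith

theorem eLp_sq {F : Type*} [NormedAddCommGroup F] {μ : Measure (Sp n)} {f : Sp n → F}
    (hf : MemLp f 2 μ) : eLpNorm f 2 μ = ENNReal.ofReal ((∫ x, ‖f x‖ ^ 2 ∂μ) ^ (2 : ℝ)⁻¹) := by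
  rw [hf.eLpNorm_eq_integral_rpow_norm (by norm_num) (by norm_num)]
  simp only [ENNReal.toReal_ofNat, rpow_two]

theorem poincare (hn : 3 ≤ n) {u : Sp n → ℝ} {G : Sp n → Sp n}
    (h : IsH10 (Metric.ball (0 : Sp n) 1) u G) :
    ∫ x in Metric.ball (0 : Sp n) 1, u x ^ 2 ≤ ∫ x in Metric.ball (0 : Sp n) 1, ‖G x‖ ^ 2 := by
  obtain ⟨ψ, hψ, h1, h2⟩ := h.approx
  have key : eLpNorm u 2 (volume.restrict (Metric.ball (0 : Sp n) 1)) ≤
      eLpNorm G 2 (volume.restrict (Metric.ball (0 : Sp n) 1)) := by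
    have h3 : Tendsto (fun k => eLpNorm (fun x => ψ k x - u x) 2
        (volume.restrict (Metric.ball (0 : Sp n) 1))
        + (eLpNorm (fun x => gradient (ψ k) x - G x) 2
          (volume.restrict (Metric.ball (0 : Sp n) 1))
          + eLpNorm G 2 (volume.restrict (Metric.ball (0 : Sp n) 1)))) atTop
        (𝓝 (0 + (0 + eLpNorm G 2 (volume.restrict (Metric.ball (0 : Sp n) 1))))) :=
      h1.add (h2.add tendsto_const_nhds)
    rw [zero_add, zero_add] at h3
    refine ge_of_tendsto' h3 fun k => ?_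
    have a1 : eLpNorm u 2 (volume.restrict (Metric.ball (0 : Sp n) 1)) ≤
        eLpNorm (ψ k) 2 (volume.restrict (Metric.ball (0 : Sp n) 1)) +
        eLpNorm (fun x => ψ k x - u x) 2 (volume.restrict (Metric.ball (0 : Sp n) 1)) := by
      have e : u = ψ k - fun x => ψ k x - u x := by
        funext x
        simp
      conv_lhs => rw [e]
      exact eLpNorm_sub_le (hψ k).memLp.1 ((hψ k).memLp.sub h.memu).1 (by norm_num)
    have a2 : eLpNorm (gradient (ψ k)) 2 (volume.restrict (Metric.ball (0 : Sp n) 1)) ≤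
        eLpNorm (fun x => gradient (ψ k) x - G x) 2
          (volume.restrict (Metric.ball (0 : Sp n) 1)) +
        eLpNorm G 2 (volume.restrict (Metric.ball (0 : Sp n) 1)) := by
      have e : gradient (ψ k) = (fun x => gradient (ψ k) x - G x) + G := by
        funext x
        simp
      conv_lhs => rw [e]
      exact eLpNorm_add_le ((hψ k).grad_memLp.sub h.memG).1 h.memG.1 (by norm_num)
    have a3 : eLpNorm (ψ k) 2 (volume.restrict (Metric.ball (0 : Sp n) 1)) ≤
        eLpNorm (gradient (ψ k)) 2 (volume.restrict (Metric.ball (0 : Sp n) 1)) := by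
      rw [eLp_sq (hψ k).memLp, eLp_sq (hψ k).grad_memLp]
      have e1 : ∫ x in Metric.ball (0 : Sp n) 1, ‖ψ k x‖ ^ 2 = ∫ x, ψ k x ^ 2 := by
        simp only [Real.norm_eq_abs, sq_abs]
        refine setIntegral_eq_integral_of_forall_compl_eq_zero fun x hx => ?_
        rw [(hψ k).zero_out hx]
        norm_num
      have e2 : ∫ x in Metric.ball (0 : Sp n) 1, ‖gradient (ψ k) x‖ ^ 2
          = ∫ x, ‖gradient (ψ k) x‖ ^ 2 := by
        refine setIntegral_eq_integral_of_forall_compl_eq_zero fun x hx => ?_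
        rw [(hψ k).grad_zero_out hx]
        simp
      rw [e1, e2]
      have h4 := poincare_test hn (hψ k)
      have h5 : 0 ≤ ∫ x, ψ k x ^ 2 := integral_nonneg fun x => by positivity
      gcongr
    calc _ ≤ _ := a1
      _ ≤ _ := by
        rw [add_comm]
        gcongr
        exact a3.trans a2
  rw [eLp_sq h.memu, eLp_sq h.memG, ENNReal.ofReal_le_ofReal_iff (by positivity)] at key
  have hA : 0 ≤ ∫ x in Metric.ball (0 : Sp n) 1, ‖u x‖ ^ 2 :=
    integral_nonneg fun x => by positivity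
  have hB : 0 ≤ ∫ x in Metric.ball (0 : Sp n) 1, ‖G x‖ ^ 2 :=
    integral_nonneg fun x => by positivity
  rw [Real.rpow_le_rpow_iff hA hB (by norm_num)] at key
  simpa only [Real.norm_eq_abs, sq_abs] using key

/-- The first eigenvalue is at least one. -/
theorem one_le_lam1 (hn : 3 ≤ n) {K : ℝ} (hK : 0 ≤ K) :
    1 ≤ lam1 n (Metric.ball 0 1) (aa n K) (bb n K) := by
  refine le_sInf ?_
  rintro _ ⟨l, rfl, u, G, hu, hne, h⟩
  have h1 := h u G hu
  have h2 := poincare hn hu
  have h3 : 0 < ∫ x in Metric.ball (0 : Sp n) 1, u x ^ 2 := by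
    have h4 : 0 ≤ ∫ x in Metric.ball (0 : Sp n) 1, u x ^ 2 :=
      integral_nonneg fun x => by positivity
    rcases h4.eq_or_lt with h5 | h5
    · exfalso
      apply hne
      have h6 := (integral_eq_zero_iff_of_nonneg (fun x => by positivity)
        hu.memu.integrable_sq).1 h5.symm
      filter_upwards [h6] with x hx
      have : u x ^ 2 = 0 := hx
      simpa using this
    · exact h5
  have hG : Integrable (fun x => ‖G x‖ ^ 2) (volume.restrict (Metric.ball (0 : Sp n) 1)) := by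
    have := hu.memG.norm.integrable_sq
    exact this
  have h7 : exp (-K) * ∫ x in Metric.ball (0 : Sp n) 1, ‖G x‖ ^ 2 ≤
      ∫ x in Metric.ball (0 : Sp n) 1, aa n K x * inner ℝ (G x) (G x) := by
    rw [← integral_const_mul]
    refine setIntegral_mono_on (hG.const_mul _) ?_ measurableSet_ball fun x hx => ?_
    · simp only [real_inner_self_eq_norm_sq]
      refine Integrable.mono' hG ?_ ?_
      · refine AEStronglyMeasurable.mul ?_ hG.1
        have : Continuous (aa n K) := by unfold aa; fun_prop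
        exact this.aestronglyMeasurable
      · refine Eventually.of_forall fun x => ?_
        rw [norm_mul, Real.norm_of_nonneg (sq_nonneg ‖G x‖)]
        have h8 : ‖aa n K x‖ ≤ 1 := by
          unfold aa
          rw [Real.norm_of_nonneg (exp_pos _).le, exp_le_one_iff]
          nlinarith [sq_nonneg ‖x‖]
        nlinarith [sq_nonneg ‖G x‖]
    · rw [real_inner_self_eq_norm_sq]
      have hx' : ‖x‖ < 1 := by simpa using hx
      have h8 : exp (-K) ≤ aa n K x := by
        unfold aa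
        rw [exp_le_exp]
        have : ‖x‖ ^ 2 ≤ 1 := by nlinarith [norm_nonneg x]
        nlinarith
      gcongr
  have h9 : ∫ x in Metric.ball (0 : Sp n) 1, bb n K x * u x * u x
      = exp (-K) * ∫ x in Metric.ball (0 : Sp n) 1, u x ^ 2 := by
    rw [← integral_const_mul]
    refine integral_congr_ae (Eventually.of_forall fun x => ?_)
    show bb n K x * u x * u x = exp (-K) * u x ^ 2
    unfold bb
    ring
  rw [h1, h9] at h7
  have hK' := exp_pos (-K)
  have h10 : exp (-K) * (∫ x in Metric.ball (0 : Sp n) 1, u x ^ 2) ≤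
      exp (-K) * ∫ x in Metric.ball (0 : Sp n) 1, ‖G x‖ ^ 2 := by gcongr
  have h11 : 1 ≤ l := by
    have h12 : 0 < exp (-K) * ∫ x in Metric.ball (0 : Sp n) 1, u x ^ 2 := by positivity
    by_contra hcon
    push Not at hcon
    nlinarith
  exact_mod_cast h11

/-! ### The level -/

theorem aa_smooth (K : ℝ) : ContDiff ℝ (⊤ : ℕ∞) (aa n K) := by
  have : ContDiff ℝ (⊤ : ℕ∞) fun x : Sp n => ‖x‖ ^ 2 := contDiff_norm_sq ℝ
  unfold aa
  fun_prop

theorem bb_smooth (K : ℝ) : ContDiff ℝ (⊤ : ℕ∞) (bb n K) := contDiff_const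

theorem cc_smooth (K : ℝ) : ContDiff ℝ (⊤ : ℕ∞) (cc n K) := by
  have : ContDiff ℝ (⊤ : ℕ∞) fun x : Sp n => ‖x‖ ^ 2 := contDiff_norm_sq ℝ
  unfold cc
  fun_prop

theorem scaled_test (t : ℝ) : IsTest (Metric.ball (0 : Sp n) 1) (fun x => t * φ n x) := by
  have hz : ∀ x, t * φ n x ≠ 0 → φ n x ≠ 0 := fun x h h0 => h (by rw [h0, mul_zero])
  refine ⟨contDiff_const.mul φ_smooth, φ_compact.mono fun x hx => hz x hx, ?_⟩
  refine (closure_mono fun x hx => ?_).trans (φ_test (n := n)).2.2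
  exact hz x hx

theorem scaled_grad (t : ℝ) (x : Sp n) :
    gradient (fun x => t * φ n x) x = t • gradient (φ n) x := by
  have hgx : HasGradientAt (φ n) (gradient (φ n) x) x :=
    (φ_smooth.differentiable (by norm_num) x).hasGradientAt
  have := hasGrad_comp (Φ := fun s => t * s) (Φ' := t) (by
    simpa only [mul_one, id] using (hasDerivAt_id (φ n x)).const_mul t) hgx
  exact this.gradient

theorem level_le (hn : 3 ≤ n) {lam A B C : ℝ} {a b c : Sp n → ℝ}
    (hA : ∫ x in Metric.ball (0 : Sp n) 1, a x * ‖gradient (φ n) x‖ ^ 2 = A)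
    (hB : ∫ x in Metric.ball (0 : Sp n) 1, b x * φ n x ^ 2 = B)
    (hC : ∫ x in Metric.ball (0 : Sp n) 1, c x * |φ n x| ^ crit n = C)
    (hC0 : 0 < C) (hpos : 0 < A - lam * B) (hle : A - lam * B ≤ C) :
    level n (Metric.ball 0 1) lam a b c ≤ ((1 / n * (A - lam * B) : ℝ) : EReal) := by
  have h3 : (3 : ℝ) ≤ n := by exact_mod_cast hn
  have hcr := crit_gt hn
  set Q := (A - lam * B) / C with hQ
  have hQ0 : 0 < Q := by positivity
  have hQ1 : Q ≤ 1 := by rw [hQ, div_le_one hC0]; exact hle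
  set t := Q ^ (1 / (crit n - 2)) with ht
  have ht0 : 0 < t := by positivity
  have ht1 : t ≤ 1 := rpow_le_one hQ0.le hQ1 (div_nonneg zero_le_one (by linarith))
  have htp : t ^ crit n = t ^ 2 * Q := by
    have h1 : t ^ (crit n - 2) = Q := by
      rw [ht, ← rpow_mul hQ0.le, one_div, inv_mul_cancel₀ (by linarith), rpow_one]
    rw [← rpow_two, ← h1, ← rpow_add ht0]
    congr 1
    ring
  have e1 : ∫ x in Metric.ball (0 : Sp n) 1, a x * ‖gradient (fun x => t * φ n x) x‖ ^ 2
      = t ^ 2 * A := by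
    rw [← hA, ← integral_const_mul]
    refine integral_congr_ae (Eventually.of_forall fun x => ?_)
    show a x * ‖gradient (fun x => t * φ n x) x‖ ^ 2 = t ^ 2 * (a x * ‖gradient (φ n) x‖ ^ 2)
    rw [scaled_grad, norm_smul, mul_pow, Real.norm_eq_abs, sq_abs]
    ring
  have e2 : ∫ x in Metric.ball (0 : Sp n) 1, b x * (t * φ n x) ^ 2 = t ^ 2 * B := by
    rw [← hB, ← integral_const_mul]
    refine integral_congr_ae (Eventually.of_forall fun x => ?_)
    show b x * (t * φ n x) ^ 2 = t ^ 2 * (b x * φ n x ^ 2)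
    ring
  have e3 : ∫ x in Metric.ball (0 : Sp n) 1, c x * |t * φ n x| ^ crit n = t ^ crit n * C := by
    rw [← hC, ← integral_const_mul]
    refine integral_congr_ae (Eventually.of_forall fun x => ?_)
    show c x * |t * φ n x| ^ crit n = t ^ crit n * (c x * |φ n x| ^ crit n)
    rw [abs_mul, abs_of_pos ht0, mul_rpow ht0.le (abs_nonneg _)]
    ring
  have hQC : Q * C = A - lam * B := by rw [hQ]; field_simp
  have hJ : J n (Metric.ball 0 1) lam a b c (fun x => t * φ n x)
      (gradient fun x => t * φ n x) = 1 / n * (t ^ 2 * (A - lam * B)) := by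
    unfold J
    rw [e1, e2, e3, htp, mul_assoc (t ^ 2), hQC]
    unfold crit
    have h2 : (n : ℝ) - 2 ≠ 0 := by
      intro h
      linarith
    have h4 : (n : ℝ) ≠ 0 := by
      intro h
      linarith
    field_simp
    ring
  have hmem : level n (Metric.ball 0 1) lam a b c ≤
      (J n (Metric.ball 0 1) lam a b c (fun x => t * φ n x)
        (gradient fun x => t * φ n x) : ℝ) := by
    refine sInf_le ⟨_, _, (scaled_test t).isH10, ?_, ?_, rfl⟩
    · intro h
      rw [Filter.EventuallyEq, ae_restrict_iff' measurableSet_ball] at h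
      have h5 : volume (Metric.ball (0 : Sp n) (1 / 4)) = 0 := by
        refine measure_mono_null ?_ h
        intro x hx hcon
        have hx' : ‖x‖ < 1 / 4 := by simpa using hx
        have h6 := hcon (by rw [mem_ball_zero_iff]; linarith)
        rw [φ_one (by nlinarith [norm_nonneg x]), mul_one] at h6
        exact ht0.ne' h6
      exact (Metric.measure_ball_pos _ _ (by norm_num)).ne' h5
    · unfold dJ
      rw [e1, e2, e3, htp, mul_assoc (t ^ 2), hQC]
      ring
  refine hmem.trans ?_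
  rw [hJ, EReal.coe_le_coe_iff]
  have h5 : t ^ 2 ≤ 1 := by nlinarith
  have h6 : t ^ 2 * (A - lam * B) ≤ 1 * (A - lam * B) := by gcongr
  have h7 : (0 : ℝ) ≤ 1 / n := by positivity
  nlinarith

theorem exists_K (hn : 3 ≤ n) {m : ℝ} (hm : 0 < m) : ∃ K : ℝ, 0 ≤ K ∧
    level n (Metric.ball 0 1) (-m) (aa n K) (bb n K) (cc n K) <
      (kap n (Metric.ball 0 1) (aa n K) (cc n K) : ℝ) := by
  have h3 : (3 : ℝ) ≤ n := by exact_mod_cast hn
  have hcr := crit_gt hn
  obtain ⟨C1, hC10, hC1⟩ := exists_grad_bound (n := n)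
  set v := volume.real (Metric.ball (0 : Sp n) (1 / 4)) with hv
  set V := volume.real (Metric.ball (0 : Sp n) 1) with hV
  have hv0 : 0 < v := vol_pos
  have hV0 : 0 < V := vol_pos'
  set S := sobolev n ^ ((n : ℝ) / 2) with hS
  have hS0 : 0 < S := by
    have := sobolev_pos hn
    positivity
  set D1 := (C1 + m) * V with hD1
  have hD10 : 0 < D1 := by positivity
  set D2 := D1 * exp 2 / v with hD2
  have hD20 : 0 < D2 := by positivity
  obtain ⟨K, hK0, hK1, hK2⟩ : ∃ K : ℝ, 0 ≤ K ∧ exp (-(K / 4)) < 1 / D2 ∧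
      exp (-(K / 4)) < S / D1 := by
    have h1 : Tendsto (fun K : ℝ => exp (-(K / 4))) atTop (𝓝 0) :=
      tendsto_exp_neg_atTop_nhds_zero.comp (tendsto_id.atTop_div_const (by norm_num))
    have h2 := h1.eventually (gt_mem_nhds (show 0 < 1 / D2 by positivity))
    have h4 := h1.eventually (gt_mem_nhds (show 0 < S / D1 by positivity))
    obtain ⟨K, hK⟩ := ((eventually_ge_atTop (0 : ℝ)).and (h2.and h4)).exists
    exact ⟨K, hK.1, hK.2.1, hK.2.2⟩
  refine ⟨K, hK0, ?_⟩
  set A := ∫ x in Metric.ball (0 : Sp n) 1, aa n K x * ‖gradient (φ n) x‖ ^ 2 with hA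
  set B := ∫ x in Metric.ball (0 : Sp n) 1, bb n K x * φ n x ^ 2 with hB
  set C := ∫ x in Metric.ball (0 : Sp n) 1, cc n K x * |φ n x| ^ crit n with hC
  have hA0 : 0 ≤ A := by
    refine integral_nonneg fun x => ?_
    show 0 ≤ aa n K x * ‖gradient (φ n) x‖ ^ 2
    unfold aa
    positivity
  have hB0 : 0 < B := by
    have h1 := lower (n := n) (w := bb n K) (bb_smooth K).continuous
      (fun _ => (exp_pos _).le) (p := 2) (by norm_num) (r := exp (-K)) (fun _ _ => le_rfl)
    have e : ∫ x in Metric.ball (0 : Sp n) 1, bb n K x * |φ n x| ^ (2 : ℝ) = B := by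
      rw [hB]
      refine integral_congr_ae (Eventually.of_forall fun x => ?_)
      show bb n K x * |φ n x| ^ (2 : ℝ) = bb n K x * φ n x ^ 2
      rw [rpow_two, sq_abs]
    rw [e] at h1
    have h2 : 0 < exp (-K) * v := by positivity
    exact h2.trans_le h1
  have hA1 : A ≤ C1 * exp (-(K / 2)) * V := by
    have h1 : A ≤ ∫ _ in Metric.ball (0 : Sp n) 1, C1 * exp (-(K / 2)) := by
      refine setIntegral_mono_on (int_ball ?_) (integrableOn_const measure_ball_lt_top.ne)
        measurableSet_ball fun x _ => ?_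
      · exact (aa_smooth K).continuous.mul ((grad_cont φ_smooth).norm.pow 2)
      · rcases lt_or_ge (‖x‖ ^ 2) (1 / 2) with h | h
        · rw [φ_grad_zero h]
          simp only [norm_zero]
          have := exp_pos (-(K / 2))
          nlinarith [mul_nonneg hC10 this.le]
        · have h4 : aa n K x ≤ exp (-(K / 2)) := by
            unfold aa
            rw [exp_le_exp]
            nlinarith
          have h5 := hC1 x
          rw [mul_comm C1]
          have h6 : 0 ≤ ‖gradient (φ n) x‖ ^ 2 := by positivity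
          have := exp_pos (-(K / 2))
          gcongr
    rw [setIntegral_const, smul_eq_mul, mul_comm] at h1
    exact h1
  have hB1 : B ≤ exp (-(K / 2)) * V := by
    have h1 : B ≤ ∫ _ in Metric.ball (0 : Sp n) 1, exp (-(K / 2)) := by
      refine setIntegral_mono_on (int_ball ?_) (integrableOn_const measure_ball_lt_top.ne)
        measurableSet_ball fun x _ => ?_
      · exact (bb_smooth K).continuous.mul (φ_smooth.continuous.pow 2)
      · have h4 : bb n K x ≤ exp (-(K / 2)) := by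
          unfold bb
          rw [exp_le_exp]
          linarith
        have h5 : φ n x ^ 2 ≤ 1 := by
          have h7 := φ_nonneg x
          have h8 := φ_le_one x
          nlinarith
        have h6 : 0 ≤ bb n K x := (exp_pos _).le
        nlinarith [sq_nonneg (φ n x)]
    rw [setIntegral_const, smul_eq_mul, mul_comm] at h1
    exact h1
  have hC1' : exp (-(3 * K / 16) - 2) * v ≤ C := by
    refine lower (n := n) (w := cc n K) (cc_smooth K).continuous
      (fun _ => (exp_pos _).le) (by linarith) (fun x hx => ?_)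
    unfold cc
    rw [exp_le_exp]
    have h4 : ‖x‖ ^ 2 ≤ 1 / 16 := by nlinarith [norm_nonneg x]
    have h2 : (0 : ℝ) < n - 2 := by linarith
    have h5 : K * n / (n - 2) ≤ 3 * K := by
      rw [div_le_iff₀ h2]
      nlinarith
    have h6 : 2 / ((n : ℝ) - 2) ≤ 2 := by
      rw [div_le_iff₀ h2]
      nlinarith
    have h7 : 0 ≤ K * n / (n - 2) := by positivity
    have h8 : 0 ≤ 2 / ((n : ℝ) - 2) := by positivity
    have h9 : K * n / (n - 2) * ‖x‖ ^ 2 ≤ 3 * K * (1 / 16) := by
      gcongr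
    have h10 : 2 / ((n : ℝ) - 2) * (1 - ‖x‖ ^ 2) ≤ 2 * 1 := by
      have : 1 - ‖x‖ ^ 2 ≤ 1 := by nlinarith [sq_nonneg ‖x‖]
      have h11 : 0 ≤ 1 - ‖x‖ ^ 2 := by linarith
      gcongr
    linarith
  have hC0 : 0 < C := lt_of_lt_of_le (by positivity) hC1'
  clear_value A B C
  have hAB : A - -m * B ≤ D1 * exp (-(K / 2)) := by
    have h1 : m * B ≤ m * (exp (-(K / 2)) * V) := by gcongr
    rw [hD1]
    linarith
  have hpos : 0 < A - -m * B := by
    have := mul_pos hm hB0
    linarith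
  have hE : exp (-(K / 2)) ≤ exp (-(K / 4)) := by
    rw [exp_le_exp]
    linarith
  have hle : A - -m * B ≤ C := by
    refine hAB.trans (le_trans ?_ hC1')
    have h1 : exp (-(K / 4)) * D2 < 1 := by
      rw [lt_div_iff₀ hD20] at hK1
      exact hK1
    have e1 : exp (-(K / 2)) = exp (-(3 * K / 16)) * exp (-(5 * K / 16)) := by
      rw [← exp_add]
      congr 1
      ring
    have e2 : exp (-(3 * K / 16) - 2) = exp (-(3 * K / 16)) * exp (-2) := by
      rw [← exp_add]
      congr 1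
    have h4 : exp (-(5 * K / 16)) ≤ exp (-(K / 4)) := by
      rw [exp_le_exp]
      linarith
    have h5 : D1 * exp 2 / v * exp (-(K / 4)) ≤ 1 := by
      rw [mul_comm]
      exact h1.le
    have h6 : D1 * exp (-(K / 4)) ≤ exp (-2) * v := by
      have h7 : exp 2 * exp (-2) = 1 := by
        rw [← exp_add]
        norm_num
      have h8 : D1 * exp (-(K / 4)) = (D1 * exp 2 / v * exp (-(K / 4))) * (exp (-2) * v) := by
        field_simp
        linear_combination (-(1 : ℝ)) * h7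
      rw [h8]
      have : 0 < exp (-2) * v := by positivity
      nlinarith
    rw [e1, e2]
    calc D1 * (exp (-(3 * K / 16)) * exp (-(5 * K / 16)))
        = exp (-(3 * K / 16)) * (D1 * exp (-(5 * K / 16))) := by ring
      _ ≤ exp (-(3 * K / 16)) * (D1 * exp (-(K / 4))) := by gcongr
      _ ≤ exp (-(3 * K / 16)) * (exp (-2) * v) := by gcongr
      _ = _ := by ring
  refine lt_of_le_of_lt (level_le hn hA.symm hB.symm hC.symm hC0 hpos hle) ?_
  rw [kap_eq hn, EReal.coe_lt_coe_iff]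
  have h1 : exp (-(K / 4)) * D1 < S := by
    rw [lt_div_iff₀ hD10] at hK2
    exact hK2
  have h2 : A - -m * B < S := by
    have h5 : D1 * exp (-(K / 2)) ≤ D1 * exp (-(K / 4)) := by gcongr
    linarith
  have h4 : (0 : ℝ) < 1 / n := by positivity
  exact mul_lt_mul_of_pos_left h2 h4

/-- In every dimension `n ≥ 3` and for every `M` there are smooth positive coefficients on the unit
ball for which all minimum points of `f = a^{n/2}/c^{(n-2)/2}` on the closed ball lie on the
sphere, `∇f ≠ 0` there, and `lam_{0,*} ≤ M`. -/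
theorem result (n : ℕ) (hn : 3 ≤ n) (M : ℝ) : ∃ a b c : Sp n → ℝ,
    ContDiff ℝ (⊤ : ℕ∞) a ∧ ContDiff ℝ (⊤ : ℕ∞) b ∧ ContDiff ℝ (⊤ : ℕ∞) c ∧
    (∀ x, 0 < a x ∧ 0 < b x ∧ 0 < c x) ∧
    (∀ x ∈ closure (Metric.ball (0 : Sp n) 1),
      IsMinOn (quot n a c) (closure (Metric.ball (0 : Sp n) 1)) x →
      x ∈ frontier (Metric.ball (0 : Sp n) 1) ∧ gradient (quot n a c) x ≠ 0) ∧
    lam0 n (Metric.ball 0 1) a b c ≤ (M : EReal) := by
  set m := max (-M) 1 with hm
  have hm1 : 1 ≤ m := le_max_right _ _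
  have hmM : -m ≤ M := by
    have := le_max_left (-M) 1
    rw [← hm] at this
    linarith
  obtain ⟨K, hK0, hK⟩ := exists_K hn (m := m) (by linarith)
  refine ⟨aa n K, bb n K, cc n K, aa_smooth K, bb_smooth K, cc_smooth K,
    fun x => ⟨exp_pos _, exp_pos _, exp_pos _⟩, ?_, ?_⟩
  · rw [quot_eq hn, closure_ball', frontier_ball _ one_ne_zero]
    intro x hx hmin
    rw [mem_closedBall_zero_iff] at hx
    have h1 : ‖x‖ = 1 := by
      obtain ⟨y, hy⟩ := exists_unit hn
      have h2 := hmin (show y ∈ Metric.closedBall (0 : Sp n) 1 by simp [hy])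
      have h2' : exp (1 - ‖x‖ ^ 2) ≤ exp (1 - ‖y‖ ^ 2) := h2
      rw [exp_le_exp, hy] at h2'
      nlinarith [norm_nonneg x]
    refine ⟨by simp [h1], ?_⟩
    have hd : HasDerivAt (fun s : ℝ => exp (1 - s)) (-exp (1 - ‖x‖ ^ 2)) (‖x‖ ^ 2) := by
      have := ((hasDerivAt_id (‖x‖ ^ 2)).const_sub 1).exp
      simpa using this
    rw [grad_radial (F := fun s => exp (1 - s)) hd]
    refine smul_ne_zero ?_ ?_
    · have := exp_pos (1 - ‖x‖ ^ 2)
      intro h
      linarith
    · intro h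
      rw [h] at h1
      simp at h1
  · unfold lam0
    refine le_trans (b := ((-m : ℝ) : EReal)) (sInf_le ⟨-m, rfl, ?_, hK⟩) ?_
    · refine lt_of_lt_of_le ?_ (one_le_lam1 hn hK0)
      have : (-m : ℝ) < 1 := by linarith
      exact_mod_cast this
    · exact_mod_cast hmM

end

end Pool.Agent.Results.MP_6822f0_an.Counterexample
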